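import Pool.Agent.Helper92.Ru.GoalsV

/-!
# V4: size of the values of elements of the filtration
-/

set_option autoImplicit false

namespace Pool.Agent.Helper39.Ru

open Pool.Agent.Helper92.Ru NumberField MvPolynomial

theorem evalBound : EvalBound := by
  intro k _ _ T d n q a C Cf v mu Lam m t hLam g hg
  have hLam0 : (0:ℝ) < Lam := by exact_mod_cast hLam
  unfold Fil at hg
  induction hg using Submodule.span_induction with
  | mem g hg =>
    obtain ⟨α, h, hα, ht, hh, rfl⟩ := hg
    set C₁ : ℝ := max C 1 with hC₁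
    have hC₁pos : 0 < C₁ := lt_of_lt_of_le one_pos (le_max_right _ _)
    set s : ℕ := ∑ i, α i with hs
    set C₂ : ℝ := max (Cf (m - s) h) 1 with hC₂
    have hC₂pos : 0 < C₂ := lt_of_lt_of_le one_pos (le_max_right _ _)
    refine ⟨(C₁ * Real.exp C) ^ s * C₂, by positivity, ?_⟩
    intro P hP hlam
    have hX : 0 < P.X v := hP.X_pos v
    have hH1 : 1 ≤ P.H := hP.H_one
    have hH0 : 0 < P.H := lt_of_lt_of_le one_pos hH1
    obtain ⟨yh, hyh, hyhv, -⟩ := hP.val (m - s) h hh
    choose y hy hy0 hyv using hP.norm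
    refine ⟨(∏ i, y i ^ α i) * yh, ?_, ?_⟩
    · rw [map_mul, map_mul, map_prod, map_prod, hyh]
      congr 1
      apply Finset.prod_congr rfl
      intro i _
      rw [map_pow, map_pow, hy i]
    · have h1 : ∀ i, nS v (y i) ≤ (C₁ * Real.exp C) * P.X v * P.H ^ (-((mu i : ℝ) / Lam)) := by
        intro i
        have e1 : Real.exp (-P.lam v i) ≤ Real.exp C * P.H ^ (-((mu i : ℝ) / Lam)) := by
          rw [Real.rpow_def_of_pos hH0, ← Real.exp_add]
          apply Real.exp_le_exp.2
          have := hlam i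
          nlinarith
        calc nS v (y i) ≤ C * P.X v * Real.exp (-P.lam v i) := hyv i v
          _ ≤ C₁ * P.X v * Real.exp (-P.lam v i) := by
              gcongr
              exact le_max_left _ _
          _ ≤ C₁ * P.X v * (Real.exp C * P.H ^ (-((mu i : ℝ) / Lam))) := by gcongr
          _ = _ := by ring
      have h2 : nS v (∏ i, y i ^ α i) ≤ (C₁ * Real.exp C) ^ s * P.X v ^ s *
          P.H ^ (-((∑ i, (α i : ℝ) * mu i) / Lam)) := by
        rw [nS_prod]
        calc ∏ i, nS v (y i ^ α i)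
            ≤ ∏ i, ((C₁ * Real.exp C) * P.X v * P.H ^ (-((mu i : ℝ) / Lam))) ^ α i := by
              apply Finset.prod_le_prod (fun i _ => nS_nonneg v _)
              intro i _
              rw [nS_pow]
              exact pow_le_pow_left₀ (nS_nonneg v _) (h1 i) _
          _ = ∏ i, ((C₁ * Real.exp C) ^ α i * P.X v ^ α i *
                P.H ^ (-((α i : ℝ) * mu i / Lam))) := by
              apply Finset.prod_congr rfl
              intro i _
              rw [mul_pow, mul_pow, ← Real.rpow_natCast (P.H ^ _), ← Real.rpow_mul hH0.le]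
              congr 2
              ring
          _ = _ := by
              rw [Finset.prod_mul_distrib, Finset.prod_mul_distrib, Finset.prod_pow_eq_pow_sum,
                Finset.prod_pow_eq_pow_sum, ← Real.rpow_sum_of_pos hH0]
              congr 2
              rw [Finset.sum_neg_distrib, Finset.sum_div]
      have h3 : P.H ^ (-((∑ i, (α i : ℝ) * mu i) / Lam)) ≤ P.H ^ (-(t : ℝ) / Lam) := by
        apply Real.rpow_le_rpow_of_exponent_le hH1
        rw [neg_div]
        apply neg_le_neg
        apply div_le_div_of_nonneg_right _ hLam0.le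
        exact_mod_cast ht
      have h4 : nS v yh ≤ C₂ * P.X v ^ (m - s) := by
        refine (hyhv v).trans ?_
        gcongr
        exact le_max_left _ _
      rw [nS_mul]
      calc nS v (∏ i, y i ^ α i) * nS v yh
          ≤ ((C₁ * Real.exp C) ^ s * P.X v ^ s * P.H ^ (-(t : ℝ) / Lam)) *
            (C₂ * P.X v ^ (m - s)) := by
            apply mul_le_mul _ h4 (nS_nonneg v _) (by positivity)
            exact h2.trans (by gcongr)
        _ = (C₁ * Real.exp C) ^ s * C₂ * (P.X v ^ s * P.X v ^ (m - s)) *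
            P.H ^ (-(t : ℝ) / Lam) := by ring
        _ = _ := by rw [← pow_add, Nat.add_sub_cancel' hα]
  | zero =>
    refine ⟨1, one_pos, ?_⟩
    intro P hP _
    refine ⟨0, by rw [map_zero, map_zero], ?_⟩
    rw [nS_zero]
    have hX : 0 < P.X v := hP.X_pos v
    have hH0 : 0 < P.H := lt_of_lt_of_le one_pos hP.H_one
    positivity
  | add g₁ g₂ _ _ ih₁ ih₂ =>
    obtain ⟨C₁, hC₁, h₁⟩ := ih₁
    obtain ⟨C₂, hC₂, h₂⟩ := ih₂
    refine ⟨4 * max C₁ C₂, by positivity, ?_⟩
    intro P hP hlam
    obtain ⟨y₁, e₁, b₁⟩ := h₁ P hP hlam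
    obtain ⟨y₂, e₂, b₂⟩ := h₂ P hP hlam
    have hX : 0 < P.X v := hP.X_pos v
    have hH0 : 0 < P.H := lt_of_lt_of_le one_pos hP.H_one
    refine ⟨y₁ + y₂, by rw [map_add, map_add, e₁, e₂], ?_⟩
    have := nS_add_le v y₁ y₂ (max C₁ C₂ * P.X v ^ m * P.H ^ (-(t : ℝ) / Lam))
      (b₁.trans (by gcongr; exact le_max_left _ _)) (b₂.trans (by gcongr; exact le_max_right _ _))
    calc nS v (y₁ + y₂) ≤ _ := this
      _ = _ := by ring
  | smul c g _ ih =>
    obtain ⟨C₁, hC₁, h₁⟩ := ih
    refine ⟨(nS v c + 1) * C₁, mul_pos (by linarith [nS_nonneg v c]) hC₁, ?_⟩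
    intro P hP hlam
    obtain ⟨y₁, e₁, b₁⟩ := h₁ P hP hlam
    have hX : 0 < P.X v := hP.X_pos v
    have hH0 : 0 < P.H := lt_of_lt_of_le one_pos hP.H_one
    refine ⟨c * y₁, ?_, ?_⟩
    · rw [map_smul, e₁, Algebra.smul_def, map_mul]
    · rw [nS_mul]
      have hc := nS_nonneg v c
      calc nS v c * nS v y₁ ≤ (nS v c + 1) * (C₁ * P.X v ^ m * P.H ^ (-(t : ℝ) / Lam)) := by
            apply mul_le_mul (by linarith) b₁ (nS_nonneg v _) (by linarith)
        _ = _ := by ring

end Pool.Agent.Helper39.Ru
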