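import Pool.Agent.Helper92.Ru.GoalsS

/-!
# S4: determinant lower bound
-/

set_option autoImplicit false

namespace Pool.Agent.Helper39.Ru

open Pool.Agent.Helper92.Ru NumberField

variable {k : Type} [Field k] [NumberField k] {T : Finset (FinitePlace k)}

/-- upper bound for a determinant -/
theorem nS_det_le {ι : Type} [Fintype ι] [DecidableEq ι] (v : SP k T) (M : Matrix ι ι k)
    (w z : ι → ℝ) (h : ∀ i j, nS v (M i j) ≤ w i * z j) :
    nS v M.det ≤ ((Fintype.card ι).factorial : ℝ) ^ 2 * ((∏ i, w i) * ∏ j, z j) := by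
  rw [Matrix.det_apply]
  have hcard : ((Finset.univ : Finset (Equiv.Perm ι)).card : ℝ)
      = ((Fintype.card ι).factorial : ℝ) := by
    rw [Finset.card_univ, Fintype.card_perm]
  have := nS_sum_le v (Finset.univ : Finset (Equiv.Perm ι))
    (fun σ => Equiv.Perm.sign σ • ∏ i, M (σ i) i) ((∏ i, w i) * ∏ j, z j) (by
      intro σ _
      have h1 : nS v (Equiv.Perm.sign σ • ∏ i, M (σ i) i) = nS v (∏ i, M (σ i) i) := by
        rcases Int.units_eq_one_or (Equiv.Perm.sign σ) with hs | hs
        · rw [hs]; simp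
        · rw [hs]
          have : ((-1 : ℤˣ) • ∏ i, M (σ i) i) = -(∏ i, M (σ i) i) := by simp
          rw [this, nS_neg]
      rw [h1, nS_prod]
      calc ∏ i, nS v (M (σ i) i) ≤ ∏ i, (w (σ i) * z i) :=
            Finset.prod_le_prod (fun i _ => nS_nonneg v _) (fun i _ => h _ _)
        _ = (∏ i, w (σ i)) * ∏ i, z i := Finset.prod_mul_distrib
        _ = (∏ i, w i) * ∏ i, z i := by rw [Equiv.prod_comp σ w])
  rw [hcard] at this
  exact this

theorem detLB : DetLB := by
  intro k _ _ T ι _ _ _ A hA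
  set F : ℝ := ((Fintype.card ι).factorial : ℝ) ^ 2 with hF
  have hF0 : 0 < F := by
    rw [hF]
    have : 0 < (Fintype.card ι).factorial := Nat.factorial_pos _
    positivity
  refine ⟨∏ v, F / nS v (A v).det, ?_, ?_⟩
  · exact Finset.prod_pos fun v _ => div_pos hF0 (nS_pos v (hA v))
  intro w hw κ _ hκ x hx hint
  classical
  let e : κ ≃ ι := Fintype.equivOfCardEq hκ
  let Y : Matrix ι ι k := Matrix.of fun j => x (e.symm j)
  have hYu : IsUnit Y := by
    rw [← Matrix.linearIndependent_rows_iff_isUnit]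
    exact hx.comp e.symm e.symm.injective
  have hYdet : Y.det ≠ 0 := by
    have := (Matrix.isUnit_iff_isUnit_det Y).1 hYu
    exact this.ne_zero
  have hdet0 : Y.transpose.det ≠ 0 := by rwa [Matrix.det_transpose]
  have hdetS : SInt T Y.transpose.det := by
    apply SInt.det
    intro i j
    exact hint (e.symm j) i
  have h1 := one_le_prod_nS hdetS hdet0
  set z : SP k T → κ → ℝ := fun v j => ⨆ i, nS v ((A v).mulVec (x j) i) / w v i with hz
  have hentry : ∀ v i j, nS v ((A v * Y.transpose) i j) ≤ w v i * z v (e.symm j) := by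
    intro v i j
    have he : (A v * Y.transpose) i j = (A v).mulVec (x (e.symm j)) i := by
      simp [Matrix.mul_apply, Matrix.mulVec, dotProduct, Y]
    rw [he, hz]
    have hbdd : BddAbove (Set.range fun i => nS v ((A v).mulVec (x (e.symm j)) i) / w v i) :=
      Set.Finite.bddAbove (Set.finite_range _)
    have := le_ciSup hbdd i
    rw [div_le_iff₀ (hw v i)] at this
    rw [mul_comm]
    exact this
  have hv : ∀ v, nS v Y.transpose.det ≤ (F / nS v (A v).det) * ((∏ i, w v i) * ∏ j, z v j) := by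
    intro v
    have h2 := nS_det_le v (A v * Y.transpose) (w v) (fun j => z v (e.symm j)) (hentry v)
    rw [Matrix.det_mul, nS_mul] at h2
    have h3 : ∏ j, z v (e.symm j) = ∏ j, z v j := Equiv.prod_comp e.symm (z v)
    rw [h3] at h2
    have h4 : 0 < nS v (A v).det := nS_pos v (hA v)
    rw [div_mul_eq_mul_div, le_div_iff₀ h4, mul_comm]
    exact h2
  calc (1:ℝ) ≤ ∏ v : SP k T, nS v Y.transpose.det := h1
    _ ≤ ∏ v : SP k T, ((F / nS v (A v).det) * ((∏ i, w v i) * ∏ j, z v j)) :=
        Finset.prod_le_prod (fun v _ => nS_nonneg v _) (fun v _ => hv v)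
    _ = (∏ v, F / nS v (A v).det) * (∏ v, ∏ i, w v i) * ∏ j, HH A w (x j) := by
        rw [Finset.prod_mul_distrib, Finset.prod_mul_distrib, ← mul_assoc]
        congr 1
        rw [Finset.prod_comm]
        rfl

end Pool.Agent.Helper39.Ru
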